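import Pool.Agent.P8H17.UL.Stm

/-!
# Project UL, package LB: the theorem of Lang for Weierstrass cubics

The image of `F - 1` is a subgroup of the group of nonsingular points which contains all points whose
first coordinate is outside of a finite set; as the group is infinite, the image is everything.
-/

set_option autoImplicit false

open WeierstrassCurve Pool.Agent.P8H17.UL

namespace Pool.Agent.P8H76.UL

open scoped Classical in
/-- `F P - P` has the first coordinate given in the package LA -/
lemma diff_pt {κ : Type} [Field κ] {Q : ℕ} {F : κ →+* κ} (hF : ∀ x, F x = x ^ Q)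
    {V : WeierstrassCurve κ} (hV : V.map F = V) {x y : κ} (hx : x ^ Q ≠ x)
    (h : V.toAffine.Nonsingular x y) :
    ∃ (d : κ) (g : V.toAffine.Nonsingular
      (V.toAffine.addX (x ^ Q) x ((y ^ Q - V.toAffine.negY x y) / (x ^ Q - x))) d),
      mp F hV (pt h) - pt h = pt g := by
  have hx' : F x ≠ x := by rw [hF]; exact hx
  have e1 : mp F hV (pt h) - pt h
      = pt (ns_map hV h) + pt ((Affine.nonsingular_neg x y).2 h) := by
    rw [mp_pt, sub_eq_add_neg, neg_pt]
  have hne : ¬ (F x = x ∧ F y = V.toAffine.negY x (V.toAffine.negY x y)) := fun hh => hx' hh.1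
  have e2 := add_pt (ns_map hV h) ((Affine.nonsingular_neg x y).2 h) hne
  have e3 : V.toAffine.slope (F x) x (F y) (V.toAffine.negY x y)
      = (y ^ Q - V.toAffine.negY x y) / (x ^ Q - x) := by
    rw [Affine.slope_of_X_ne hx', hF, hF]
  have hg := Affine.nonsingular_add (ns_map hV h) ((Affine.nonsingular_neg x y).2 h) hne
  have e4 : V.toAffine.addX (F x) x (V.toAffine.slope (F x) x (F y) (V.toAffine.negY x y))
      = V.toAffine.addX (x ^ Q) x ((y ^ Q - V.toAffine.negY x y) / (x ^ Q - x)) := by
    rw [e3, hF]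
  rw [e4] at hg
  refine ⟨_, hg, ?_⟩
  rw [e1, e2]
  exact pt_congr _ _ e4 rfl

/-- two points with the same first coordinate are equal or opposite -/
lemma eq_or_neg {κ : Type} [Field κ] {V : WeierstrassCurve κ} {x y d : κ}
    (h : V.toAffine.Nonsingular x y) (g : V.toAffine.Nonsingular x d) :
    pt h = pt g ∨ pt h = -pt g := by
  rcases Affine.Y_eq_of_X_eq h.1 g.1 rfl with e | e
  · exact Or.inl (pt_congr _ _ rfl e)
  · right
    rw [neg_pt]
    exact pt_congr _ _ rfl e

/-- the points over a finite set of first coordinates are finite in number -/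
lemma finite_over {κ : Type} [Field κ] (V : WeierstrassCurve κ) (S : Finset κ) :
    {P : Pt V | ∃ (x y : κ) (h : V.toAffine.Nonsingular x y), x ∈ S ∧ P = pt h}.Finite := by
  have hsub : {P : Pt V | ∃ (x y : κ) (h : V.toAffine.Nonsingular x y), x ∈ S ∧ P = pt h}
      ⊆ ⋃ s ∈ (S : Set κ), {P : Pt V | ∃ (y : κ) (h : V.toAffine.Nonsingular s y), P = pt h} := by
    rintro P ⟨x, y, h, hx, rfl⟩
    simp only [Set.mem_iUnion, Set.mem_ofPred_eq]
    exact ⟨x, hx, y, h, rfl⟩
  refine Set.Finite.subset (Set.Finite.biUnion S.finite_toSet fun s _ => ?_) hsub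
  by_cases hne : ∃ P0 : Pt V, ∃ (y : κ) (h : V.toAffine.Nonsingular s y), P0 = pt h
  · obtain ⟨P0, y0, h0, rfl⟩ := hne
    refine Set.Finite.subset (Set.toFinite ({pt h0, -pt h0} : Set (Pt V))) ?_
    rintro P ⟨y, h, rfl⟩
    rcases eq_or_neg h h0 with e | e
    · exact Or.inl e
    · exact Or.inr e
  · have : {P : Pt V | ∃ (y : κ) (h : V.toAffine.Nonsingular s y), P = pt h} = ∅ := by
      ext P
      simp only [Set.mem_ofPred_eq, Set.mem_empty_iff_false, iff_false]
      rintro ⟨y, h, e⟩
      exact hne ⟨P, y, h, e⟩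
    rw [this]
    exact Set.finite_empty

/-- a subgroup with finite complement in an infinite group is everything -/
lemma eq_top_of_finite_compl {A : Type} [AddCommGroup A] [Infinite A] (H : AddSubgroup A)
    (hc : {a : A | a ∉ H}.Finite) (b : A) : b ∈ H := by
  by_contra hb
  have h1 : (H : Set A).Finite := by
    have hinj : Function.Injective (fun a : A => b + a) := add_right_injective b
    refine Set.Finite.of_finite_image (f := fun a : A => b + a) (hc.subset ?_) hinj.injOn
    rintro _ ⟨a, ha, rfl⟩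
    intro hh
    exact hb ((AddSubgroup.add_mem_cancel_right H ha).1 hh)
  have h2 : (Set.univ : Set A).Finite := by
    refine (h1.union hc).subset fun a _ => ?_
    by_cases ha : a ∈ H
    · exact Or.inl ha
    · exact Or.inr ha
  exact Set.infinite_univ h2

/-- Package LB of the project UL. -/
theorem lb (hLA : S_LA) : S_LB := by
  intro κ _ _ Q hQ F hF V hV b
  have hadd : ∀ x y : κ, (x + y) ^ Q = x ^ Q + y ^ Q := fun x y => by
    rw [← hF, ← hF, ← hF, map_add]
  have ha1 : V.a₁ ^ Q = V.a₁ := by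
    rw [← hF]; exact congrArg WeierstrassCurve.a₁ hV
  have ha2 : V.a₂ ^ Q = V.a₂ := by
    rw [← hF]; exact congrArg WeierstrassCurve.a₂ hV
  have ha3 : V.a₃ ^ Q = V.a₃ := by
    rw [← hF]; exact congrArg WeierstrassCurve.a₃ hV
  have ha4 : V.a₄ ^ Q = V.a₄ := by
    rw [← hF]; exact congrArg WeierstrassCurve.a₄ hV
  have ha6 : V.a₆ ^ Q = V.a₆ := by
    rw [← hF]; exact congrArg WeierstrassCurve.a₆ hV
  obtain ⟨S, hS⟩ := hLA κ Q hQ hadd V ha1 ha2 ha3 ha4 ha6
  let H : AddSubgroup (Pt V) := (mp F hV - AddMonoidHom.id (Pt V)).range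
  have hH : ∀ c : κ, c ∉ S → ∃ (d : κ) (g : V.toAffine.Nonsingular c d), pt g ∈ H := by
    intro c hc
    obtain ⟨x, y, hx, h, rfl⟩ := hS c hc
    obtain ⟨d, g, e⟩ := diff_pt hF hV hx h
    refine ⟨d, g, pt h, ?_⟩
    exact e
  have hmem : ∀ P : Pt V, P ∉ H →
      P ∈ {P : Pt V | ∃ (x y : κ) (h : V.toAffine.Nonsingular x y), x ∈ S ∧ P = pt h} := by
    intro P hP
    rcases pt_cases P with rfl | ⟨x, y, h, rfl⟩
    · exact absurd (zero_mem H) hP
    · refine ⟨x, y, h, ?_, rfl⟩
      by_contra hx
      obtain ⟨d, g, hg⟩ := hH x hx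
      rcases eq_or_neg h g with e | e
      · exact hP (e ▸ hg)
      · exact hP (e ▸ (neg_mem hg))
  have hfin : {P : Pt V | P ∉ H}.Finite := (finite_over V S).subset hmem
  have hinf : Infinite (Pt V) := by
    have hx : {c : κ | c ∉ S}.Infinite := by
      have : Infinite κ := IsAlgClosed.instInfinite
      exact S.finite_toSet.infinite_compl
    have : Infinite {c : κ | c ∉ S} := hx.to_subtype
    choose d g hg using hH
    refine Infinite.of_injective (fun c : {c : κ | c ∉ S} => pt (g c.1 c.2)) ?_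
    intro c c' e
    exact Subtype.ext (pt_inj e).1
  obtain ⟨c, hc⟩ := eq_top_of_finite_compl H hfin b
  exact ⟨c, hc⟩

end Pool.Agent.P8H76.UL
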