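import Pool.Agent.P8H17.UL.Stm

/-!
# Project UL, package RC: sum of a nonintegral and an integral point

With `z = x₁ / y₁` and `ρ = y₁ ^ 2 / x₁ ^ 3` one has `x₁ = 1 / (ρ z ^ 2)`, `y₁ = 1 / (ρ z ^ 3)`, with
`z` in the maximal ideal and `ρ` a unit with residue one, and the coordinates of the sum are
explicit polynomials in `z`, `ρ` and the coordinates of the second point.
-/

set_option autoImplicit false

open WeierstrassCurve Pool.Agent.P8H17.UL IsLocalRing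

namespace Pool.Agent.P8H76.UL

/-- the inverse of an element outside of a valuation ring -/
lemma inv_res {L : Type} [Field L] {A : ValuationSubring L} {a : L} (ha : a ∉ A) :
    ∃ t : A, (t : L) * a = 1 ∧ residue A t = 0 := by
  have ha0 : a ≠ 0 := fun h => ha (h ▸ A.zero_mem)
  have h1 : a⁻¹ ∈ A := (A.mem_or_inv_mem a).resolve_left ha
  refine ⟨⟨a⁻¹, h1⟩, inv_mul_cancel₀ ha0, ?_⟩
  rw [residue_eq_zero_iff, mem_maximalIdeal, mem_nonunits_iff]
  intro hu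
  obtain ⟨b, hb⟩ := hu.exists_right_inv
  apply ha
  have h2 : a⁻¹ * (b : L) = 1 := congrArg (Subtype.val) hb
  have h3 : (b : L) = a := by
    have := congrArg (fun s => a * s) h2
    simp only [mul_one] at this
    rw [← mul_assoc, mul_inv_cancel₀ ha0, one_mul] at this
    exact this
  rw [← h3]
  exact b.2

/-- an element with residue one is invertible -/
lemma unit_res {L : Type} [Field L] {A : ValuationSubring L} {e : A} (he : residue A e = 1) :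
    ∃ i : A, i * e = 1 ∧ residue A i = 1 := by
  have hu : IsUnit e := by
    rw [← residue_ne_zero_iff_isUnit, he]
    exact one_ne_zero
  obtain ⟨i, hi⟩ := hu.exists_left_inv
  refine ⟨i, hi, ?_⟩
  have := congrArg (residue A) hi
  rw [map_mul, he, mul_one, map_one] at this
  exact this

/-- the parameters of a nonintegral point -/
lemma param {L : Type} [Field L] {A : ValuationSubring L} (a1 a2 a3 a4 a6 : A) {x y : L}
    (hE : y ^ 2 + a1 * x * y + a3 * y = x ^ 3 + a2 * x ^ 2 + a4 * x + a6) (hx : x ∉ A) :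
    ∃ z ρ : A, residue A z = 0 ∧ residue A ρ = 1 ∧ (x * (ρ * z ^ 2) : L) = 1 ∧
      (y * (ρ * z ^ 3) : L) = 1 ∧
      ρ * (1 + a1 * z + a3 * ρ * z ^ 3)
        = 1 + a2 * ρ * z ^ 2 + a4 * ρ ^ 2 * z ^ 4 + a6 * ρ ^ 3 * z ^ 6 := by
  obtain ⟨t, ht, htr⟩ := inv_res hx
  have hx0 : x ≠ 0 := fun h => hx (h ▸ A.zero_mem)
  have hu : y * t ∉ A := by
    intro hu
    apply hx
    have : x = (y * t) ^ 2 + a1 * (y * t) + a3 * (y * t) * t - a2 - a4 * t - a6 * t ^ 2 := by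
      have h1 : (t : L) ^ 2 * (y ^ 2 + a1 * x * y + a3 * y)
          = t ^ 2 * (x ^ 3 + a2 * x ^ 2 + a4 * x + a6) := by rw [hE]
      linear_combination -h1 + (- x * ((t : L) * x + 1) - a2 * ((t : L) * x + 1) - a4 * t
        + a1 * y * t) * ht
    rw [this]
    exact sub_mem (sub_mem (sub_mem (add_mem (add_mem (pow_mem hu 2) (mul_mem a1.2 hu))
      (mul_mem (mul_mem a3.2 hu) t.2)) a2.2) (mul_mem a4.2 t.2)) (mul_mem a6.2 (pow_mem t.2 2))
  obtain ⟨z, hz, hzr⟩ := inv_res hu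
  have he : residue A (1 + a1 * z + a3 * z * t) = 1 := by
    simp only [map_add, map_mul, map_one, hzr, htr, mul_zero, add_zero]
  obtain ⟨i, hi, hir⟩ := unit_res he
  have hiL : (i : L) * (1 + a1 * z + a3 * z * t) = 1 := congrArg Subtype.val hi
  have hz0 : (z : L) ≠ 0 := by
    intro h
    rw [h, zero_mul] at hz
    exact zero_ne_one hz
  have hρ : ((1 + a2 * t + a4 * t ^ 2 + a6 * t ^ 3) * i : L) * z ^ 2 = t := by
    have h1 : (t : L) ^ 3 * (y ^ 2 + a1 * x * y + a3 * y)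
          = t ^ 3 * (x ^ 3 + a2 * x ^ 2 + a4 * x + a6) := by rw [hE]
    have h2 : (y * t) ^ 2 * t + a1 * (y * t) * t + a3 * (y * t) * t ^ 2
        = 1 + a2 * t + a4 * t ^ 2 + a6 * t ^ 3 := by
      linear_combination h1 + ((((t : L) * x) ^ 2 + t * x + 1) + a2 * t * ((t : L) * x + 1)
        + a4 * t ^ 2 - a1 * y * t ^ 2) * ht
    have h3 : (1 + a2 * t + a4 * t ^ 2 + a6 * t ^ 3) * z ^ 2
        = (t : L) * (1 + a1 * z + a3 * z * t) := by
      rw [← h2]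
      linear_combination ((t : L) * (z * (y * t) + 1) + a1 * t * z + a3 * t ^ 2 * z) * hz
    linear_combination (i : L) * h3 + (t : L) * hiL
  refine ⟨z, (1 + a2 * t + a4 * t ^ 2 + a6 * t ^ 3) * i, hzr, ?_, ?_, ?_, ?_⟩
  · simp only [map_add, map_mul, map_pow, map_one, htr, hir, mul_zero, add_zero, mul_one, ne_eq,
      OfNat.ofNat_ne_zero, not_false_eq_true, zero_pow]
  · push_cast
    rw [hρ, mul_comm]
    exact ht
  · push_cast
    have : (y * ((1 + a2 * t + a4 * t ^ 2 + a6 * t ^ 3) * i * z ^ 3) : L)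
        = y * z * (((1 + a2 * t + a4 * t ^ 2 + a6 * t ^ 3) * i : L) * z ^ 2) := by ring
    rw [this, hρ]
    linear_combination hz
  · apply Subtype.ext
    push_cast
    have ht' := hρ
    set ρ : L := (1 + a2 * t + a4 * t ^ 2 + a6 * t ^ 3) * i with hρd
    have h4 : ρ * (1 + a1 * z + a3 * z * t) = 1 + a2 * t + a4 * t ^ 2 + a6 * t ^ 3 := by
      rw [hρd]
      linear_combination (1 + a2 * t + a4 * t ^ 2 + a6 * t ^ 3 : L) * hiL
    rw [← ht'] at h4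
    linear_combination h4

/-- the coordinates of the sum -/
lemma sum_alg {L : Type} [Field L] (a1 a2 a3 a4 a6 x1 y1 x2 y2 z ρ i l δ ε η ξ : L)
    (hz : z ≠ 0) (hρ : ρ ≠ 0)
    (X : x1 * (ρ * z ^ 2) = 1) (Y : y1 * (ρ * z ^ 3) = 1)
    (R : ρ * (1 + a1 * z + a3 * ρ * z ^ 3)
        = 1 + a2 * ρ * z ^ 2 + a4 * ρ ^ 2 * z ^ 4 + a6 * ρ ^ 3 * z ^ 6)
    (I : i * (1 - x2 * ρ * z ^ 2) = 1)
    (hδ : δ = -ρ * a1 - a3 * ρ ^ 2 * z ^ 2 + a2 * ρ * z + a4 * ρ ^ 2 * z ^ 3 + a6 * ρ ^ 3 * z ^ 5)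
    (hε : ε = ρ * (x2 - y2 * z) * i) (hη : η = (δ * x2 - ρ * y2 + x2 ^ 2 * ρ * z) * i)
    (hξ : ξ = 2 * η + z * ε ^ 2 + a1 * ε - a3 * ρ + a4 * ρ * z + a6 * ρ ^ 2 * z ^ 3)
    (hl : l * (x1 - x2) = y1 - y2) :
    x1 ≠ x2 ∧ l * z = 1 + z ^ 2 * ε ∧ l ^ 2 + a1 * l - a2 - x1 - x2 = x2 + z * ξ ∧
      l * (l ^ 2 + a1 * l - a2 - x1 - x2 - x1) + y1 = (1 + z ^ 2 * ε) * ξ + y2 := by
  have h0 : (1 - x2 * ρ * z ^ 2) ≠ 0 := by
    intro h
    rw [h, mul_zero] at I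
    exact zero_ne_one I
  have hd : (x1 - x2) * (ρ * z ^ 2) = 1 - x2 * ρ * z ^ 2 := by linear_combination X
  have hK : l * z = 1 + z ^ 2 * ε := by
    have h1 : (l * z - (1 + z ^ 2 * ε)) * (1 - x2 * ρ * z ^ 2) = 0 := by
      rw [hε]
      linear_combination (ρ * z ^ 3) * hl - (l * z) * X + Y - (z ^ 2 * ρ * (x2 - y2 * z)) * I
    exact sub_eq_zero.1 ((mul_eq_zero.1 h1).resolve_right h0)
  have hD : z * δ = ρ - 1 := by
    rw [hδ]
    linear_combination -R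
  have hH : z * η = ε - x2 := by
    rw [hη, hε]
    linear_combination (x2 * i) * hD - x2 * I
  have hX : l ^ 2 + a1 * l - a2 - x1 - x2 = x2 + z * ξ := by
    have h1 : (ρ * z ^ 2) * (l ^ 2 + a1 * l - a2 - x1 - x2 - (x2 + z * ξ)) = 0 := by
      rw [hξ]
      linear_combination (ρ * (l * z + (1 + z ^ 2 * ε)) + ρ * a1 * z) * hK - X + R
        - 2 * ρ * z ^ 2 * hH
    exact sub_eq_zero.1 ((mul_eq_zero.1 h1).resolve_left (mul_ne_zero hρ (pow_ne_zero 2 hz)))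
  refine ⟨?_, hK, hX, ?_⟩
  · intro h
    rw [h, sub_self, zero_mul] at hd
    exact h0 hd.symm
  · rw [hX]
    linear_combination ξ * hK + (-1 : L) * hl

/-- Package RC of the project UL. -/
theorem rc : S_RC := by
  intro L _ A V x₁ y₁ x₂ y₂ h₁ h₂ hx
  have E1 : y₁ ^ 2 + (V.a₁ : L) * x₁ * y₁ + (V.a₃ : L) * y₁
      = x₁ ^ 3 + (V.a₂ : L) * x₁ ^ 2 + (V.a₄ : L) * x₁ + (V.a₆ : L) :=
    (Affine.equation_iff _ _).1 h₁.1
  obtain ⟨z, ρ, hz, hρ, X, Y, R⟩ := param V.a₁ V.a₂ V.a₃ V.a₄ V.a₆ E1 hx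
  have hz0 : (z : L) ≠ 0 := by
    intro h
    rw [h] at X
    simp at X
  have hρ0 : (ρ : L) ≠ 0 := by
    intro h
    rw [h] at X
    simp at X
  have he : residue A (1 - x₂ * ρ * z ^ 2) = 1 := by
    simp only [map_sub, map_mul, map_pow, map_one, hz]
    ring
  obtain ⟨i, hi, hir⟩ := unit_res he
  set δ : A := -ρ * V.a₁ - V.a₃ * ρ ^ 2 * z ^ 2 + V.a₂ * ρ * z + V.a₄ * ρ ^ 2 * z ^ 3
    + V.a₆ * ρ ^ 3 * z ^ 5 with hδ
  set ε : A := ρ * (x₂ - y₂ * z) * i with hε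
  set η : A := (δ * x₂ - ρ * y₂ + x₂ ^ 2 * ρ * z) * i with hη
  set ξ : A := 2 * η + z * ε ^ 2 + V.a₁ * ε - V.a₃ * ρ + V.a₄ * ρ * z + V.a₆ * ρ ^ 2 * z ^ 3
    with hξ
  have hδr : residue A δ = - residue A V.a₁ := by
    rw [hδ]
    simp only [map_add, map_sub, map_mul, map_pow, map_neg, hz, hρ]
    ring
  have hεr : residue A ε = residue A x₂ := by
    rw [hε]
    simp only [map_sub, map_mul, hz, hρ, hir]
    ring
  have hηr : residue A η = - residue A V.a₁ * residue A x₂ - residue A y₂ := by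
    rw [hη]
    simp only [map_add, map_sub, map_mul, map_pow, hz, hρ, hir, hδr]
    ring
  have hξr : residue A ξ
      = - residue A V.a₁ * residue A x₂ - 2 * residue A y₂ - residue A V.a₃ := by
    rw [hξ]
    simp only [map_add, map_sub, map_mul, map_pow, map_ofNat, hz, hρ, hεr, hηr]
    ring
  -- the slope
  have hcast : ∀ {a b : A}, a = b → (a : L) = (b : L) := fun h => congrArg _ h
  have Rl := hcast R
  have Il := hcast hi
  have hδl := hcast hδ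
  have hεl := hcast hε
  have hηl := hcast hη
  have hξl := hcast hξ
  push_cast at Rl Il hδl hεl hηl hξl
  have hne : x₁ ≠ (x₂ : L) := fun h => hx (h ▸ x₂.2)
  obtain ⟨l, hl⟩ : ∃ l : L, l = (y₁ - (y₂ : L)) / (x₁ - (x₂ : L)) := ⟨_, rfl⟩
  have hl' : l * (x₁ - (x₂ : L)) = y₁ - (y₂ : L) := by
    rw [hl]
    exact div_mul_cancel₀ _ (sub_ne_zero.2 hne)
  obtain ⟨_, hK, hX, hY⟩ := sum_alg (V.a₁ : L) V.a₂ V.a₃ V.a₄ V.a₆ x₁ y₁ x₂ y₂ z ρ i l δ ε η ξ
    hz0 hρ0 X Y Rl Il hδl hεl hηl hξl hl'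
  have hxy : ¬ (x₁ = (x₂ : L) ∧ y₁ = (gn V).toAffine.negY (x₂ : L) (y₂ : L)) := fun h => hne h.1
  classical
  have hsl : (gn V).toAffine.slope x₁ (x₂ : L) y₁ (y₂ : L) = l := by
    rw [Affine.slope_of_X_ne hne, hl]
  have hadd := add_pt h₁ h₂ hxy
  have hns := Affine.nonsingular_add h₁ h₂ hxy
  have e3 : (gn V).toAffine.addX x₁ (x₂ : L) ((gn V).toAffine.slope x₁ (x₂ : L) y₁ (y₂ : L))
      = ((x₂ + z * ξ : A) : L) := by
    rw [hsl]
    push_cast
    exact hX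
  have e4 : (gn V).toAffine.addY x₁ (x₂ : L) y₁ ((gn V).toAffine.slope x₁ (x₂ : L) y₁ (y₂ : L))
      = ((-((1 + z ^ 2 * ε) * ξ + y₂) - V.a₁ * (x₂ + z * ξ) - V.a₃ : A) : L) := by
    rw [hsl]
    push_cast
    rw [← hY, ← hX]
    rfl
  rw [e3, e4] at hns
  refine ⟨_, _, hns, ?_, ?_, ?_⟩
  · rw [hadd]
    exact pt_congr _ _ e3 e4
  · simp only [map_add, map_mul, hz]
    ring
  · simp only [map_add, map_sub, map_mul, map_pow, map_neg, map_one, hz, hεr, hξr]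
    ring

end Pool.Agent.P8H76.UL
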